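import Pool.Agent.N831.GA.Stm

/-!
# Project GA, part TR2: Rogosinski's lemma for typically real functions (helper933 for helper831)
-/

set_option autoImplicit false

namespace Pool.Agent.N933.GA.TR2

open Complex Metric Filter Topology Pool.Agent.N831.GA

/-- the real part vanishes on the imaginary axis -/
theorem axis (f : ℂ → ℂ) (c w : ℂ) (r : ℝ) (hf : AnalyticOnNhd ℂ f (closedBall c r))
    (h : ∀ z ∈ closedBall c r, 0 ≤ z.re * (f z).re) (hw : w ∈ ball c r) (hw0 : w.re = 0) :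
    (f w).re = 0 := by
  have hc : ContinuousAt (fun y : ℝ => (f (w + (y : ℂ))).re) 0 := by
    have h1 : ContinuousAt f (w + ((0 : ℝ) : ℂ)) := by
      rw [ofReal_zero, add_zero]
      exact (hf w (ball_subset_closedBall hw)).continuousAt
    have h2 : ContinuousAt (fun y : ℝ => w + (y : ℂ)) 0 := by fun_prop
    exact Complex.continuous_re.continuousAt.comp (ContinuousAt.comp (f := fun y : ℝ => w + (y : ℂ))
      h1 h2)
  have hev : ∀ᶠ y : ℝ in 𝓝 0, w + (y : ℂ) ∈ closedBall c r := by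
    have h2 : ContinuousAt (fun y : ℝ => w + (y : ℂ)) 0 := by fun_prop
    have h3 : ball c r ∈ 𝓝 (w + ((0 : ℝ) : ℂ)) := by
      rw [ofReal_zero, add_zero]
      exact isOpen_ball.mem_nhds hw
    filter_upwards [h2.eventually_mem h3] with y hy
    exact ball_subset_closedBall hy
  have hv : (fun y : ℝ => (f (w + (y : ℂ))).re) 0 = (f w).re := by
    simp only [ofReal_zero, add_zero]
  have hc' : Tendsto (fun y : ℝ => (f (w + (y : ℂ))).re) (𝓝 0) (𝓝 (f w).re) := by
    rw [← hv]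
    exact hc
  refine le_antisymm ?_ ?_
  · have h4 : Tendsto (fun y : ℝ => (f (w + (y : ℂ))).re) (𝓝[<] 0) (𝓝 (f w).re) :=
      hc'.mono_left nhdsWithin_le_nhds
    refine le_of_tendsto h4 ?_
    filter_upwards [nhdsWithin_le_nhds hev, self_mem_nhdsWithin] with y hy hy0
    have h5 := h _ hy
    rw [add_re, hw0, ofReal_re, zero_add] at h5
    have hy0' : y < 0 := hy0
    by_contra hcon
    push Not at hcon
    nlinarith
  · have h4 : Tendsto (fun y : ℝ => (f (w + (y : ℂ))).re) (𝓝[>] 0) (𝓝 (f w).re) :=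
      hc'.mono_left nhdsWithin_le_nhds
    refine ge_of_tendsto h4 ?_
    filter_upwards [nhdsWithin_le_nhds hev, self_mem_nhdsWithin] with y hy hy0
    have h5 := h _ hy
    rw [add_re, hw0, ofReal_re, zero_add] at h5
    have hy0' : 0 < y := hy0
    by_contra hcon
    push Not at hcon
    nlinarith

theorem t (h1 : S_TR1) : Pool.Agent.N831.GA.S_TR2 := by
  intro f c r hr hc hf h
  have hfc : (f c).re = 0 := axis f c c r hf h (mem_ball_self hr) hc
  refine ⟨hfc, ?_⟩
  obtain ⟨F, hFd⟩ : ∃ F : ℂ → ℂ, F = fun u => f (c + r * u) - f c := ⟨_, rfl⟩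
  have hmem : ∀ u ∈ closedBall (0 : ℂ) 1, c + r * u ∈ closedBall c r := by
    intro u hu
    rw [mem_closedBall, dist_zero_right] at hu
    rw [mem_closedBall, dist_eq_norm, add_sub_cancel_left, norm_mul, norm_real,
      Real.norm_eq_abs, abs_of_pos hr]
    nlinarith
  have hF : DifferentiableOn ℂ F (closedBall 0 1) := by
    intro u hu
    rw [hFd]
    have h2 : DifferentiableAt ℂ f (c + r * u) := (hf _ (hmem u hu)).differentiableAt
    have h3 : DifferentiableAt ℂ (fun u : ℂ => c + r * u) u := by fun_prop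
    exact ((DifferentiableAt.comp (f := fun u : ℂ => c + r * u) u h2 h3).sub_const _
      ).differentiableWithinAt
  have hF0 : F 0 = 0 := by
    rw [hFd]
    simp
  have hre : ∀ u, (F u).re = (f (c + r * u)).re := by
    intro u
    rw [hFd]
    simp only [sub_re, hfc, sub_zero]
  obtain ⟨g, hgd⟩ : ∃ g : ℂ → ℂ, g = fun u => (1 + u ^ 2) * dslope F 0 u := ⟨_, rfl⟩
  have hcl : closure (ball (0 : ℂ) 1) = closedBall 0 1 := closure_ball 0 one_ne_zero
  have hg : DifferentiableOn ℂ g (closedBall 0 1) := by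
    rw [hgd]
    have h2 : DifferentiableOn ℂ (dslope F 0) (closedBall 0 1) :=
      (Complex.differentiableOn_dslope (closedBall_mem_nhds 0 one_pos)).2 hF
    have h3 : DifferentiableOn ℂ (fun u : ℂ => 1 + u ^ 2) (closedBall 0 1) := by fun_prop
    exact h3.mul h2
  have hug : ∀ u, u * g u = (1 + u ^ 2) * F u := by
    intro u
    have h2 := sub_smul_dslope F 0 u
    rw [sub_zero, hF0, sub_zero, smul_eq_mul] at h2
    rw [hgd]
    simp only
    rw [← h2]
    ring
  -- the real part on the circle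
  have hcirc : ∀ u ∈ sphere (0 : ℂ) 1, 0 ≤ (g u).re := by
    intro u hu
    have hu1 : ‖u‖ = 1 := by
      rw [mem_sphere, dist_zero_right] at hu
      exact hu
    have h2 : (starRingEnd ℂ) u * u = 1 := by
      rw [Complex.conj_mul', hu1]
      norm_num
    have h3 : g u = ((2 * u.re : ℝ) : ℂ) * F u := by
      have h4 : (starRingEnd ℂ) u + u = ((2 * u.re : ℝ) : ℂ) := by
        rw [add_comm, Complex.add_conj]
      calc g u = ((starRingEnd ℂ) u * u) * g u := by rw [h2, one_mul]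
        _ = (starRingEnd ℂ) u * (u * g u) := by ring
        _ = (starRingEnd ℂ) u * ((1 + u ^ 2) * F u) := by rw [hug]
        _ = ((starRingEnd ℂ) u + u * ((starRingEnd ℂ) u * u)) * F u := by ring
        _ = _ := by rw [h2, mul_one, h4]
    rw [h3, re_ofReal_mul, hre]
    have h5 := h _ (hmem u (sphere_subset_closedBall hu))
    have h6 : (c + r * u).re = r * u.re := by
      rw [add_re, hc, zero_add, re_ofReal_mul]
    rw [h6, mul_assoc] at h5
    have h7 : 0 ≤ u.re * (f (c + r * u)).re := by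
      by_contra hcon
      push Not at hcon
      have := mul_neg_of_pos_of_neg hr hcon
      linarith
    nlinarith
  have hdc : DiffContOnCl ℂ (fun u => Complex.exp (-g u)) (ball 0 1) := by
    apply DifferentiableOn.diffContOnCl
    rw [hcl]
    exact hg.neg.cexp
  have hball : ∀ u ∈ ball (0 : ℂ) 1, 0 ≤ (g u).re := by
    intro u hu
    have h2 := Complex.norm_le_of_forall_mem_frontier_norm_le (C := 1) isBounded_ball hdc (by
      intro z hz
      rw [frontier_ball 0 one_ne_zero] at hz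
      rw [Complex.norm_exp, neg_re]
      rw [Real.exp_le_one_iff]
      linarith [hcirc z hz]) (subset_closure hu)
    rw [Complex.norm_exp, neg_re, Real.exp_le_one_iff] at h2
    linarith
  -- the value at zero
  have hg0 : g 0 = deriv F 0 := by
    rw [hgd]
    simp [dslope_same]
  have hd : HasDerivAt F (deriv F 0) 0 :=
    (hF.differentiableAt (closedBall_mem_nhds 0 one_pos)).hasDerivAt
  have him : (g 0).im = 0 := by
    have e1 : HasDerivAt (fun y : ℝ => (y : ℂ) * I) I 0 := by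
      have := (Complex.ofRealCLM.hasDerivAt (x := 0)).mul_const I
      simpa using this
    have e2 : HasDerivAt (fun y : ℝ => F ((y : ℂ) * I)) (deriv F 0 * I) 0 := by
      have h3 : HasDerivAt F (deriv F 0) (((0 : ℝ) : ℂ) * I) := by
        rw [ofReal_zero, zero_mul]
        exact hd
      exact HasDerivAt.comp (h := fun y : ℝ => (y : ℂ) * I) 0 h3 e1
    have e3 : HasDerivAt (fun y : ℝ => (F ((y : ℂ) * I)).re) (deriv F 0 * I).re 0 :=
      Complex.reCLM.hasFDerivAt.comp_hasDerivAt (0 : ℝ) e2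
    have e4 : (fun y : ℝ => (F ((y : ℂ) * I)).re) =ᶠ[𝓝 0] fun _ => (0 : ℝ) := by
      filter_upwards [Metric.ball_mem_nhds (0 : ℝ) one_pos] with y hy
      rw [Metric.mem_ball, dist_zero_right, Real.norm_eq_abs] at hy
      rw [hre]
      apply axis f c _ r hf h
      · rw [mem_ball, dist_eq_norm, add_sub_cancel_left, norm_mul, norm_mul, norm_I, norm_real,
          norm_real, Real.norm_eq_abs, Real.norm_eq_abs, abs_of_pos hr, mul_one]
        nlinarith
      · rw [add_re, hc, re_ofReal_mul, re_ofReal_mul, I_re]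
        ring
    have e5 := (e3.congr_of_eventuallyEq e4.symm).unique (hasDerivAt_const 0 (0 : ℝ))
    rw [mul_I_re] at e5
    rw [hg0]
    linarith
  have hP0 : 0 ≤ (g 0).re := hball 0 (mem_ball_self one_pos)
  have hPn : ‖g 0‖ = (g 0).re := by
    have : g 0 = (((g 0).re : ℝ) : ℂ) := Complex.ext rfl (by rw [him, ofReal_im])
    rw [this, norm_real, Real.norm_eq_abs, ofReal_re, abs_of_nonneg hP0]
  have hTR := h1 g (hg.mono ball_subset_closedBall) hball
  obtain ⟨P, hP⟩ : ∃ P, P = (g 0).re := ⟨_, rfl⟩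
  rw [hPn, ← hP] at hTR
  have hrc : (r : ℂ) ≠ 0 := by exact_mod_cast hr.ne'
  have hzu : ∀ z : ℂ, c + r * ((z - c) / r) = z := by
    intro z
    field_simp
    ring
  have hnu : ∀ z : ℂ, ‖(z - c) / r‖ = ‖z - c‖ / r := by
    intro z
    rw [norm_div, norm_real, Real.norm_eq_abs, abs_of_pos hr]
  have hFz : ∀ z : ℂ, F ((z - c) / r) = f z - f c := by
    intro z
    rw [hFd]
    simp only [hzu]
  have h12 : ∀ u : ℂ, 1 - ‖u‖ ^ 2 ≤ ‖1 + u ^ 2‖ := by
    intro u
    have h2 := norm_sub_norm_le (1 : ℂ) (-(u ^ 2))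
    rw [norm_one, norm_neg, norm_pow, sub_neg_eq_add] at h2
    exact h2
  refine ⟨P, hP ▸ hP0, ?_, ?_, ?_⟩
  · intro z hz
    rw [mem_ball, dist_eq_norm] at hz
    obtain ⟨u, hu⟩ : ∃ u, u = (z - c) / (r : ℂ) := ⟨_, rfl⟩
    have hun : ‖u‖ = ‖z - c‖ / r := by rw [hu, hnu]
    have hu1 : ‖u‖ < 1 := by
      rw [hun, div_lt_one hr]
      exact hz
    obtain ⟨h2, -⟩ := hTR u (by rw [mem_ball, dist_zero_right]; exact hu1)
    have h3 := congrArg norm (hug u)
    rw [norm_mul, norm_mul] at h3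
    have h4 := h12 u
    have hn0 := norm_nonneg u
    have hz' : ‖z - c‖ = ‖u‖ * r := by
      rw [hun]
      field_simp
    rw [← hFz z, ← hu, hz']
    have h5 : ‖F u‖ * (1 - ‖u‖) ^ 2 ≤ P * ‖u‖ := by
      -- multiply by (1 + |u|)
      have h6 : (‖F u‖ * (1 - ‖u‖) ^ 2) * (1 + ‖u‖) ≤ (P * ‖u‖) * (1 + ‖u‖) := by
        calc (‖F u‖ * (1 - ‖u‖) ^ 2) * (1 + ‖u‖) = ((1 - ‖u‖ ^ 2) * ‖F u‖) * (1 - ‖u‖) := by ring
          _ ≤ (‖1 + u ^ 2‖ * ‖F u‖) * (1 - ‖u‖) :=
            mul_le_mul_of_nonneg_right (mul_le_mul_of_nonneg_right h4 (norm_nonneg _)) (by linarith)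
          _ = ‖u‖ * (‖g u‖ * (1 - ‖u‖)) := by rw [← h3]; ring
          _ ≤ ‖u‖ * (P * (1 + ‖u‖)) := mul_le_mul_of_nonneg_left h2 hn0
          _ = (P * ‖u‖) * (1 + ‖u‖) := by ring
      exact le_of_mul_le_mul_right h6 (by linarith)
    have h7 := mul_le_mul_of_nonneg_left h5 (show 0 ≤ r ^ 2 by positivity)
    calc ‖F u‖ * (r - ‖u‖ * r) ^ 2 = r ^ 2 * (‖F u‖ * (1 - ‖u‖) ^ 2) := by ring
      _ ≤ r ^ 2 * (P * ‖u‖) := h7
      _ = P * r * (‖u‖ * r) := by ring
  · intro z hz
    obtain ⟨u, hu⟩ : ∃ u, u = (z - c) / (r : ℂ) := ⟨_, rfl⟩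
    have hun : ‖u‖ = 1 / 2 := by
      rw [hu, hnu, hz]
      field_simp
    obtain ⟨-, h2⟩ := hTR u (by rw [mem_ball, dist_zero_right, hun]; norm_num)
    have h2' := h2 him
    have h3 := congrArg norm (hug u)
    rw [norm_mul, norm_mul, hun] at h3
    have h4 : ‖1 + u ^ 2‖ ≤ 5 / 4 := by
      refine (norm_add_le _ _).trans ?_
      rw [norm_one, norm_pow, hun]
      norm_num
    have h5 : (g u).re ≤ ‖g u‖ := Complex.re_le_norm _
    have h6 : ‖1 + u ^ 2‖ * ‖F u‖ ≤ 5 / 4 * ‖F u‖ :=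
      mul_le_mul_of_nonneg_right h4 (norm_nonneg _)
    rw [hun] at h2'
    rw [← hFz z, ← hu]
    linarith
  · have hun : ‖(1 / 2 : ℂ)‖ = 1 / 2 := by
      rw [norm_div, norm_one]
      norm_num
    obtain ⟨-, h2⟩ := hTR (1 / 2) (by rw [mem_ball, dist_zero_right, hun]; norm_num)
    have h2' := h2 him
    rw [hun] at h2'
    have h3 := congrArg Complex.re (hug (1 / 2))
    have e1 : ((1 / 2 : ℂ) * g (1 / 2)).re = 1 / 2 * (g (1 / 2)).re := by
      have : (1 / 2 : ℂ) = ((1 / 2 : ℝ) : ℂ) := by push_cast; rfl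
      rw [this, re_ofReal_mul]
    have e2 : ((1 + (1 / 2 : ℂ) ^ 2) * F (1 / 2)).re = 5 / 4 * (F (1 / 2)).re := by
      have : (1 + (1 / 2 : ℂ) ^ 2) = ((5 / 4 : ℝ) : ℂ) := by push_cast; norm_num
      rw [this, re_ofReal_mul]
    rw [e1, e2, hre] at h3
    have e3 : c + (r : ℂ) * (1 / 2) = c + ((r / 2 : ℝ) : ℂ) := by
      push_cast
      ring
    rw [e3] at h3
    linarith

end Pool.Agent.N933.GA.TR2
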